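import Mathlib

open Finset Polynomial

namespace Pool.Agent.H.MP_4d1f21_nt

variable {P : ℚ[X]}

theorem unit_iff (V : ℚ[X]) : IsUnit (AdjoinRoot.mk P V) ↔ IsCoprime V P := by
  constructor
  · intro h
    obtain ⟨w, hw⟩ := h.exists_right_inv
    obtain ⟨W, rfl⟩ := AdjoinRoot.mk_surjective w
    have : AdjoinRoot.mk P (V * W - 1) = 0 := by rw [map_sub, map_mul, hw, map_one, sub_self]
    rw [AdjoinRoot.mk_eq_zero] at this
    obtain ⟨c, hc⟩ := this
    exact ⟨W, -c, by linear_combination hc⟩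
  · rintro ⟨a, b, h⟩
    have := congrArg (AdjoinRoot.mk P) h
    rw [map_add, map_mul, map_mul, AdjoinRoot.mk_self, mul_zero, add_zero, map_one] at this
    exact IsUnit.of_mul_eq_one_right _ this

def Rel (P : ℚ[X]) (f : RatFunc ℚ) (a : AdjoinRoot P) : Prop :=
  ∃ U V : ℚ[X], IsUnit (AdjoinRoot.mk P V) ∧ V ≠ 0 ∧
    f * algebraMap ℚ[X] (RatFunc ℚ) V = algebraMap ℚ[X] (RatFunc ℚ) U ∧
    AdjoinRoot.mk P U = a * AdjoinRoot.mk P V

theorem Rel.poly (U : ℚ[X]) : Rel P (algebraMap ℚ[X] (RatFunc ℚ) U) (AdjoinRoot.mk P U) :=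
  ⟨U, 1, by simp, one_ne_zero, by simp, by simp⟩

theorem Rel.X : Rel P RatFunc.X (AdjoinRoot.root P) := by
  have := Rel.poly (P := P) Polynomial.X
  simpa using this

theorem Rel.one : Rel P 1 1 := by
  have := Rel.poly (P := P) 1
  simpa using this

theorem Rel.zero : Rel P 0 0 := by
  have := Rel.poly (P := P) 0
  simpa using this

theorem Rel.nat (n : ℕ) : Rel P n n := by
  have := Rel.poly (P := P) n
  simpa using this

theorem Rel.int (n : ℤ) : Rel P n n := by
  have := Rel.poly (P := P) n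
  simpa using this

theorem Rel.rat (c : ℚ) : Rel P (RatFunc.C c) (algebraMap ℚ (AdjoinRoot P) c) := by
  have := Rel.poly (P := P) (C c)
  rw [RatFunc.algebraMap_C] at this
  exact this

theorem Rel.add {f g : RatFunc ℚ} {a b : AdjoinRoot P} (h : Rel P f a) (k : Rel P g b) :
    Rel P (f + g) (a + b) := by
  obtain ⟨U, V, h1, h2, h3, h4⟩ := h
  obtain ⟨U', V', k1, k2, k3, k4⟩ := k
  refine ⟨U * V' + U' * V, V * V', by rw [map_mul]; exact h1.mul k1, mul_ne_zero h2 k2, ?_, ?_⟩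
  · simp only [map_add, map_mul, ← h3, ← k3]; ring
  · simp only [map_add, map_mul, h4, k4]; ring

theorem Rel.mul {f g : RatFunc ℚ} {a b : AdjoinRoot P} (h : Rel P f a) (k : Rel P g b) :
    Rel P (f * g) (a * b) := by
  obtain ⟨U, V, h1, h2, h3, h4⟩ := h
  obtain ⟨U', V', k1, k2, k3, k4⟩ := k
  refine ⟨U * U', V * V', by rw [map_mul]; exact h1.mul k1, mul_ne_zero h2 k2, ?_, ?_⟩
  · simp only [map_mul, ← h3, ← k3]; ring
  · simp only [map_mul, h4, k4]; ring

theorem Rel.neg {f : RatFunc ℚ} {a : AdjoinRoot P} (h : Rel P f a) : Rel P (-f) (-a) := by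
  have := (Rel.int (P := P) (-1)).mul h
  simpa using this

theorem Rel.sub {f g : RatFunc ℚ} {a b : AdjoinRoot P} (h : Rel P f a) (k : Rel P g b) :
    Rel P (f - g) (a - b) := by
  simpa [sub_eq_add_neg] using h.add k.neg

theorem Rel.pow {f : RatFunc ℚ} {a : AdjoinRoot P} (h : Rel P f a) (n : ℕ) :
    Rel P (f ^ n) (a ^ n) := by
  induction n with
  | zero => simpa using Rel.one
  | succ n ih => rw [pow_succ, pow_succ]; exact ih.mul h

theorem Rel.sum {ι : Type*} (s : Finset ι) {f : ι → RatFunc ℚ} {a : ι → AdjoinRoot P}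
    (h : ∀ i ∈ s, Rel P (f i) (a i)) : Rel P (∑ i ∈ s, f i) (∑ i ∈ s, a i) := by
  classical
  induction s using Finset.induction_on with
  | empty => simpa using Rel.zero
  | insert i s hi ih =>
    rw [sum_insert hi, sum_insert hi]
    exact (h i (mem_insert_self _ _)).add (ih fun j hj => h j (mem_insert_of_mem hj))

theorem Rel.prod {ι : Type*} (s : Finset ι) {f : ι → RatFunc ℚ} {a : ι → AdjoinRoot P}
    (h : ∀ i ∈ s, Rel P (f i) (a i)) : Rel P (∏ i ∈ s, f i) (∏ i ∈ s, a i) := by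
  classical
  induction s using Finset.induction_on with
  | empty => simpa using Rel.one
  | insert i s hi ih =>
    rw [prod_insert hi, prod_insert hi]
    exact (h i (mem_insert_self _ _)).mul (ih fun j hj => h j (mem_insert_of_mem hj))

theorem Rel.inv [Nontrivial (AdjoinRoot P)] {f : RatFunc ℚ} {a b : AdjoinRoot P} (h : Rel P f a)
    (hab : a * b = 1) : Rel P f⁻¹ b := by
  obtain ⟨U, V, h1, h2, h3, h4⟩ := h
  have hU : IsUnit (AdjoinRoot.mk P U) := by
    rw [h4]; exact (IsUnit.of_mul_eq_one _ hab).mul h1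
  have hU0 : U ≠ 0 := by
    rintro rfl
    rw [map_zero] at hU
    exact not_isUnit_zero hU
  have hf : f ≠ 0 := by
    rintro rfl
    rw [zero_mul] at h3
    exact hU0 (IsFractionRing.injective ℚ[X] (RatFunc ℚ) (by rw [← h3, map_zero]))
  refine ⟨V, U, hU, hU0, ?_, ?_⟩
  · rw [← h3, ← mul_assoc, inv_mul_cancel₀ hf, one_mul]
  · rw [h4, ← mul_assoc, mul_comm b a, hab, one_mul]

theorem Rel.ne_zero [Nontrivial (AdjoinRoot P)] {f : RatFunc ℚ} {a : AdjoinRoot P} (h : Rel P f a)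
    (ha : IsUnit a) : f ≠ 0 := by
  obtain ⟨U, V, h1, h2, h3, h4⟩ := h
  rintro rfl
  rw [zero_mul] at h3
  have : U = 0 := IsFractionRing.injective ℚ[X] (RatFunc ℚ) (by rw [← h3, map_zero])
  rw [this, map_zero] at h4
  exact not_isUnit_zero (h4 ▸ ha.mul h1)

theorem Rel.fin {f : RatFunc ℚ} (h : Rel P f 0) : P ∣ f.num ∧ IsCoprime f.denom P := by
  obtain ⟨U, V, h1, h2, h3, h4⟩ := h
  rw [zero_mul, AdjoinRoot.mk_eq_zero] at h4
  rw [unit_iff] at h1
  have hV : algebraMap ℚ[X] (RatFunc ℚ) V ≠ 0 := fun h0 =>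
    h2 (IsFractionRing.injective ℚ[X] (RatFunc ℚ) (by rw [h0, map_zero]))
  have hf : f = algebraMap ℚ[X] (RatFunc ℚ) U / algebraMap ℚ[X] (RatFunc ℚ) V := by
    rw [eq_div_iff hV, h3]
  have e := (RatFunc.num_mul_eq_mul_denom_iff h2).2 hf
  have hd : f.denom ∣ V := by
    rw [hf]; exact RatFunc.denom_div_dvd U V
  refine ⟨?_, h1.of_isCoprime_of_dvd_left hd⟩
  have : P ∣ f.num * V := by rw [e]; exact h4.mul_right _
  exact h1.symm.dvd_of_dvd_mul_right this

theorem cop {n j : ℕ} (hn : 0 < n) (h : ¬ n ∣ j) :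
    IsCoprime (1 - X ^ j : ℚ[X]) (cyclotomic n ℚ) := by
  have hi := cyclotomic.irreducible_rat hn
  refine ((hi.coprime_iff_not_dvd).2 ?_).symm
  rintro ⟨c, hc⟩
  have hz := Complex.isPrimitiveRoot_exp n hn.ne'
  set z := Complex.exp (2 * Real.pi * Complex.I / n)
  have h0 : aeval z (cyclotomic n ℚ) = 0 := by
    have := hz.isRoot_cyclotomic hn
    rw [aeval_def, eval₂_eq_eval_map, map_cyclotomic]
    exact this
  have := congrArg (aeval z) hc
  rw [map_mul, h0, zero_mul] at this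
  simp only [map_sub, map_one, map_pow, aeval_X] at this
  exact h ((hz.pow_eq_one_iff_dvd j).1 (by linear_combination -this))

theorem unit_root {n j : ℕ} (e : ℕ) (hn : 0 < n) (h : ¬ n ∣ j) :
    IsUnit (1 - AdjoinRoot.root (cyclotomic n ℚ ^ e) ^ j) := by
  have := (unit_iff (P := cyclotomic n ℚ ^ e) (1 - X ^ j)).2 (cop hn h).pow_right
  simpa using this

theorem eps_pow (n e : ℕ) : (AdjoinRoot.root (cyclotomic n ℚ ^ e) ^ n - 1) ^ e = 0 := by
  have : AdjoinRoot.mk (cyclotomic n ℚ ^ e) ((X ^ n - 1) ^ e) = 0 := by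
    rw [AdjoinRoot.mk_eq_zero]
    exact pow_dvd_pow_of_dvd (cyclotomic.dvd_X_pow_sub_one n ℚ) e
  simpa using this

theorem nontriv {n e : ℕ} (hn : 0 < n) (he : 0 < e) :
    Nontrivial (AdjoinRoot (cyclotomic n ℚ ^ e)) := by
  apply AdjoinRoot.nontrivial
  rw [degree_eq_natDegree (pow_ne_zero _ (cyclotomic_ne_zero n ℚ)), natDegree_pow,
    natDegree_cyclotomic]
  have := Nat.totient_pos.2 hn
  have : 0 < e * n.totient := Nat.mul_pos he this
  exact_mod_cast this.ne'

end Pool.Agent.H.MP_4d1f21_nt
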