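import Mathlib

open Finset

namespace Pool.Agent.H.MP_4d1f21_nt

variable {A : Type*} [CommRing A]

theorem one_add_pow {e : A} (he : e ^ 2 = 0) (i : ℕ) : (1 + e) ^ i = 1 + e * i := by
  induction i with
  | zero => simp
  | succ i ih => rw [pow_succ, ih]; push_cast; linear_combination (i : A) * he

theorem prod_lin {ι : Type*} [DecidableEq ι] {e : A} (he : e ^ 2 = 0) (S : Finset ι) (G y : ι → A) :
    ∏ i ∈ S, (G i + e * y i) = ∏ i ∈ S, G i + e * ∑ i ∈ S, y i * ∏ j ∈ S.erase i, G j := by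
  induction S using Finset.induction_on with
  | empty => simp
  | insert a S ha ih =>
    rw [prod_insert ha, prod_insert ha, sum_insert ha, ih, erase_insert ha]
    have : ∑ i ∈ S, y i * ∏ j ∈ (insert a S).erase i, G j
        = G a * ∑ i ∈ S, y i * ∏ j ∈ S.erase i, G j := by
      rw [mul_sum]
      refine sum_congr rfl fun i hi => ?_
      have hne : a ≠ i := fun h => ha (h ▸ hi)
      rw [erase_insert_of_ne hne, prod_insert (fun h => ha (mem_of_mem_erase h))]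
      ring
    rw [this]
    linear_combination (y a * ∑ i ∈ S, y i * ∏ j ∈ S.erase i, G j) * he

section qb
variable (Q a : A) (n N : ℕ) (w : ℕ → A)

theorem w_succ (hw : ∀ k, k < n → w k * ∏ j ∈ range k, (1 - Q * Q ^ j) = 1) (k : ℕ)
    (hk : k + 1 < n) : w (k + 1) * (1 - Q ^ (k + 1)) = w k := by
  have h1 := hw (k + 1) hk
  have h2 := hw k (by omega)
  rw [prod_range_succ] at h1
  rw [pow_succ']
  linear_combination (w k) * h1 - (w (k + 1) * (1 - Q * Q ^ k)) * h2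

theorem feq (hN : N < n) (ha : a * Q ^ N = 1)
    (hw : ∀ k, k < n → w k * ∏ j ∈ range k, (1 - Q * Q ^ j) = 1) (z : A) :
    (1 - z) * ∑ k ∈ range n, (∏ j ∈ range k, (1 - a * Q ^ j)) * w k * z ^ k
      = (1 - a * z) * ∑ k ∈ range n, (∏ j ∈ range k, (1 - a * Q ^ j)) * w k * (Q * z) ^ k := by
  obtain ⟨n, rfl⟩ : ∃ m, n = m + 1 := ⟨n - 1, by omega⟩
  have key : ∑ k ∈ range (n + 1), (∏ j ∈ range k, (1 - a * Q ^ j)) * w k * (1 - Q ^ k) * z ^ k
      = ∑ k ∈ range (n + 1), (∏ j ∈ range (k + 1), (1 - a * Q ^ j)) * w k * z ^ (k + 1) := by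
    rw [sum_range_succ', sum_range_succ (fun k => (∏ j ∈ range (k + 1), (1 - a * Q ^ j)) * w k * z ^ (k + 1))]
    have h0 : ∏ j ∈ range (n + 1), (1 - a * Q ^ j) = 0 :=
      prod_eq_zero (mem_range.2 hN) (by rw [ha, sub_self])
    rw [h0]
    simp only [pow_zero, sub_self, mul_zero, zero_mul, add_zero]
    refine sum_congr rfl fun k hk => ?_
    rw [← w_succ Q (n + 1) w hw k (by have := mem_range.1 hk; omega)]
    ring
  have e1 : ∑ k ∈ range (n + 1), (∏ j ∈ range k, (1 - a * Q ^ j)) * w k * (1 - Q ^ k) * z ^ k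
      = ∑ k ∈ range (n + 1), (∏ j ∈ range k, (1 - a * Q ^ j)) * w k * z ^ k
        - ∑ k ∈ range (n + 1), (∏ j ∈ range k, (1 - a * Q ^ j)) * w k * (Q * z) ^ k := by
    rw [← sum_sub_distrib]
    refine sum_congr rfl fun k _ => ?_
    rw [mul_pow]; ring
  have e2 : ∑ k ∈ range (n + 1), (∏ j ∈ range (k + 1), (1 - a * Q ^ j)) * w k * z ^ (k + 1)
      = z * ∑ k ∈ range (n + 1), (∏ j ∈ range k, (1 - a * Q ^ j)) * w k * z ^ k
        - a * z * ∑ k ∈ range (n + 1), (∏ j ∈ range k, (1 - a * Q ^ j)) * w k * (Q * z) ^ k := by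
    rw [mul_sum, mul_sum, ← sum_sub_distrib]
    refine sum_congr rfl fun k _ => ?_
    rw [mul_pow, prod_range_succ]; ring
  rw [e1, e2] at key
  linear_combination key

theorem qb (hN : N < n) (ha : a * Q ^ N = 1) (hu : ∀ j, 0 < j → j < n → IsUnit (1 - Q ^ j))
    (hw : ∀ k, k < n → w k * ∏ j ∈ range k, (1 - Q * Q ^ j) = 1) (l : ℕ) (hl : l < N) :
    ∑ k ∈ range n, (∏ j ∈ range k, (1 - a * Q ^ j)) * w k * (Q ^ (l + 1)) ^ k = 0 := by
  have hun : ∀ l, l < N → IsUnit (1 - a * Q ^ l) := by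
    intro l hl
    have h1 := hu (N - l) (by omega) (by omega)
    have h2 : (1 - a * Q ^ l) * Q ^ (N - l) = -(1 - Q ^ (N - l)) := by
      have : Q ^ l * Q ^ (N - l) = Q ^ N := by rw [← pow_add]; congr 1; omega
      linear_combination (-a) * this - ha
    exact isUnit_of_mul_isUnit_left (h2 ▸ h1.neg)
  induction l with
  | zero =>
    have := feq Q a n N w hN ha hw 1
    rw [sub_self, zero_mul] at this
    have h := hun 0 hl
    rw [pow_zero] at h
    simpa using (h.mul_right_eq_zero).1 this.symm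
  | succ l ih =>
    have := feq Q a n N w hN ha hw (Q ^ (l + 1))
    rw [ih (by omega), mul_zero, ← pow_succ'] at this
    exact ((hun (l + 1) hl).mul_right_eq_zero).1 this.symm

def Z (Q : A) (n N : ℕ) (b : ℕ → A) (D : ℕ) : Prop :=
  ∀ l, l + D < N → ∑ k ∈ range n, b k * (Q ^ (l + 1)) ^ k = 0

theorem Z.step {Q : A} {n N : ℕ} {b : ℕ → A} {D : ℕ} (h : Z Q n N b D) (c : A) :
    Z Q n N (fun k => b k * (1 - c * Q ^ k)) (D + 1) := by
  intro l hl
  have h1 := h l (by omega)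
  have h2 := h (l + 1) (by omega)
  have : ∑ k ∈ range n, b k * (1 - c * Q ^ k) * (Q ^ (l + 1)) ^ k
      = ∑ k ∈ range n, b k * (Q ^ (l + 1)) ^ k - c * ∑ k ∈ range n, b k * (Q ^ (l + 1 + 1)) ^ k := by
    rw [mul_sum, ← sum_sub_distrib]
    refine sum_congr rfl fun k _ => ?_
    rw [pow_succ Q (l + 1), mul_pow]; ring
  rw [this, h1, h2]; ring

theorem Z.prod {Q : A} {n N : ℕ} {b : ℕ → A} {D : ℕ} (h : Z Q n N b D) (c : ℕ → A) (u : A) (M : ℕ) :
    Z Q n N (fun k => b k * (u * ∏ l ∈ range M, (1 - c l * Q ^ k))) (D + M) := by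
  induction M with
  | zero =>
    intro l hl
    have := h l hl
    simp only [range_zero, prod_empty, mul_one]
    have e : ∑ k ∈ range n, b k * u * (Q ^ (l + 1)) ^ k
        = u * ∑ k ∈ range n, b k * (Q ^ (l + 1)) ^ k := by
      rw [mul_sum]; exact sum_congr rfl fun k _ => by ring
    rw [e, this, mul_zero]
  | succ M ih =>
    have := ih.step (c M)
    simp only [prod_range_succ]
    intro l hl
    rw [← this l hl]
    exact sum_congr rfl fun k _ => by ring

theorem Z.prods {Q : A} {n N : ℕ} {b : ℕ → A} (h : Z Q n N b 0) (c : ℕ → A) (u : ℕ → A)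
    (M : ℕ → ℕ) (S : Finset ℕ) :
    Z Q n N (fun k => b k * ∏ i ∈ S, (u i * ∏ l ∈ range (M i), (1 - c l * Q ^ k)))
      (∑ i ∈ S, M i) := by
  induction S using Finset.induction_on with
  | empty => simpa using h
  | insert a S ha ih =>
    have := ih.prod c (u a) (M a)
    simp only [prod_insert ha, sum_insert ha]
    intro l hl
    rw [← this l (by omega)]
    exact sum_congr rfl fun k _ => by ring

theorem poch_sw (M k : ℕ) :
    (∏ j ∈ range k, (1 - Q ^ (M + 1) * Q ^ j)) * ∏ j ∈ range M, (1 - Q * Q ^ j)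
      = (∏ j ∈ range k, (1 - Q * Q ^ j)) * ∏ l ∈ range M, (1 - Q ^ (l + 1) * Q ^ k) := by
  have h1 := prod_range_add (fun j => 1 - Q * Q ^ j) M k
  have h2 := prod_range_add (fun j => 1 - Q * Q ^ j) k M
  rw [add_comm k M, h1] at h2
  have e1 : ∏ j ∈ range k, (1 - Q ^ (M + 1) * Q ^ j) = ∏ j ∈ range k, (1 - Q * Q ^ (M + j)) :=
    prod_congr rfl fun j _ => by ring
  have e2 : ∏ l ∈ range M, (1 - Q ^ (l + 1) * Q ^ k) = ∏ l ∈ range M, (1 - Q * Q ^ (k + l)) :=
    prod_congr rfl fun j _ => by ring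
  rw [e1, e2, ← h2, mul_comm]

theorem km (hN : N < n) (ha : a * Q ^ N = 1) (hu : ∀ j, 0 < j → j < n → IsUnit (1 - Q ^ j))
    (hw : ∀ k, k < n → w k * ∏ j ∈ range k, (1 - Q * Q ^ j) = 1) (M : ℕ → ℕ) (S : Finset ℕ)
    (hM : ∀ i ∈ S, M i < n) (hS : ∑ i ∈ S, M i < N) :
    ∑ k ∈ range n, (∏ j ∈ range k, (1 - a * Q ^ j)) * w k *
      (∏ i ∈ S, ((∏ j ∈ range k, (1 - Q ^ (M i + 1) * Q ^ j)) * w k)) * Q ^ k = 0 := by
  have h0 : Z Q n N (fun k => (∏ j ∈ range k, (1 - a * Q ^ j)) * w k) 0 :=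
    fun l hl => qb Q a n N w hN ha hu hw l hl
  have := h0.prods (fun l => Q ^ (l + 1)) (fun i => w (M i)) M S 0 (by omega)
  rw [← this]
  refine sum_congr rfl fun k hk => ?_
  rw [zero_add, pow_one]
  congr 2
  refine prod_congr rfl fun i hi => ?_
  have h1 := poch_sw Q (M i) k
  have h2 := hw k (mem_range.1 hk)
  have h3 := hw (M i) (hM i hi)
  linear_combination (w k * w (M i)) * h1
    - ((∏ j ∈ range k, (1 - Q ^ (M i + 1) * Q ^ j)) * w k) * h3
    + (w (M i) * ∏ l ∈ range (M i), (1 - Q ^ (l + 1) * Q ^ k)) * h2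

end qb

theorem sum_Icc_id (d m : ℕ) (hm : 2 * m = d * (d + 1)) : ∑ i ∈ Icc 1 d, i = m := by
  have : ∀ d : ℕ, 2 * ∑ i ∈ Icc 1 d, i = d * (d + 1) := by
    intro d
    induction d with
    | zero => simp
    | succ d ih => rw [sum_Icc_succ_top (by omega), mul_add, ih]; ring
  have := this d
  omega

theorem main (x : A) (d m n t : ℕ) (hd : 3 ≤ d) (hm : 2 * m = d * (d + 1)) (ht : n + 1 = m * t)
    (he : (x ^ n - 1) ^ 2 = 0) (w : ℕ → A)
    (hu : ∀ j, 0 < j → j < n → IsUnit (1 - (x ^ m) ^ j))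
    (hw : ∀ k, k < n → w k * ∏ j ∈ range k, (1 - x ^ m * (x ^ m) ^ j) = 1) :
    (m : A) * ∑ k ∈ range n, (∏ i ∈ Icc 1 d, ∏ j ∈ range k, (1 - x ^ i * (x ^ m) ^ j)) *
      w k ^ d * (x ^ m) ^ k = 0 := by
  set Q := x ^ m with hQ
  set e := x ^ n - 1 with hedef
  have hx : x ^ n = 1 + e := by rw [hedef]; ring
  have ht0 : 0 < t := by
    rcases Nat.eq_zero_or_pos t with h | h
    · rw [h] at ht; omega
    · exact h
  have hmd : 2 * d ≤ m := by nlinarith
  have hsum := sum_Icc_id d m hm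
  have hQit : ∀ i : ℕ, x ^ i * (1 + e * i) = Q ^ (i * t) := by
    intro i
    rw [← one_add_pow he, ← hx, hQ, ← mul_pow, ← pow_succ', ht, ← pow_mul, ← pow_mul]
    congr 1; ring
  have hQn : Q ^ n = 1 + e * m := by
    rw [hQ, ← pow_mul, mul_comm, pow_mul, hx, one_add_pow he]
  set s : ℕ → ℕ → A := fun j i => (i : A) - if i = j then (m : A) else 0 with hs
  have hP : ∀ j ∈ Icc 1 d, ∑ k ∈ range n,
      (∏ i ∈ Icc 1 d, ∏ l ∈ range k, (1 - x ^ i * (1 + e * s j i) * Q ^ l)) * w k ^ d * Q ^ k = 0 := by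
    intro j hj
    have hj' := mem_Icc.1 hj
    have hjt : j * t ≤ d * t := Nat.mul_le_mul_right _ hj'.2
    have hdt : 2 * (d * t) ≤ m * t := by rw [← mul_assoc]; exact Nat.mul_le_mul_right _ hmd
    have hjt0 : 0 < j * t := Nat.mul_pos hj'.1 ht0
    have hd0 : 3 ≤ d * t := by nlinarith
    have ha : x ^ j * (1 + e * s j j) * Q ^ (n - j * t) = 1 := by
      have h1 : Q ^ (j * t) * Q ^ (n - j * t) = Q ^ n := by rw [← pow_add]; congr 1; omega
      have h2 := hQit j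
      simp only [hs, if_true]
      rw [← h2, hQn] at h1
      linear_combination (1 - e * m) * h1 + (x ^ j * Q ^ (n - j * t) * j * m - m ^ 2) * he
    have hS : ∑ i ∈ (Icc 1 d).erase j, (i * t - 1) < n - j * t := by
      have h1 : ∑ i ∈ (Icc 1 d).erase j, (i * t - 1) + ((Icc 1 d).erase j).card
          = (∑ i ∈ (Icc 1 d).erase j, i) * t := by
        rw [card_eq_sum_ones, ← sum_add_distrib, sum_mul]
        refine sum_congr rfl fun i hi => ?_
        have := (mem_Icc.1 (mem_of_mem_erase hi)).1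
        have := Nat.mul_pos this ht0
        omega
      have h2 := add_sum_erase (Icc 1 d) (fun i => i) hj
      rw [card_erase_of_mem hj, Nat.card_Icc] at h1
      rw [hsum] at h2
      have h3 : m * t = j * t + (∑ i ∈ (Icc 1 d).erase j, i) * t := by rw [← h2]; ring
      omega
    have := km Q (x ^ j * (1 + e * s j j)) n (n - j * t) w (by omega) ha hu hw
      (fun i => i * t - 1) ((Icc 1 d).erase j) (fun i hi => by
        have := Nat.mul_le_mul_right t (mem_Icc.1 (mem_of_mem_erase hi)).2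
        show i * t - 1 < n
        omega) hS
    rw [← this]
    refine sum_congr rfl fun k _ => ?_
    rw [← mul_prod_erase _ _ hj, prod_mul_distrib, prod_const, card_erase_of_mem hj, Nat.card_Icc]
    have e1 : ∏ i ∈ (Icc 1 d).erase j, ∏ l ∈ range k, (1 - x ^ i * (1 + e * s j i) * Q ^ l)
        = ∏ i ∈ (Icc 1 d).erase j, ∏ l ∈ range k, (1 - Q ^ (i * t - 1 + 1) * Q ^ l) := by
      refine prod_congr rfl fun i hi => ?_
      have h1 := (mem_Icc.1 (mem_of_mem_erase hi)).1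
      have h2 := Nat.mul_pos h1 ht0
      have h3 : i * t - 1 + 1 = i * t := by omega
      rw [h3, ← hQit]
      simp only [hs, if_neg (ne_of_mem_erase hi), sub_zero]
    have e2 : w k ^ d = w k * w k ^ (d + 1 - 1 - 1) := by
      rw [← pow_succ']; congr 1; omega
    rw [e1, e2]; ring
  have hL : ∀ k, ∃ L : ℕ → A, ∀ j,
      ∏ i ∈ Icc 1 d, ∏ l ∈ range k, (1 - x ^ i * (1 + e * s j i) * Q ^ l)
        = ∏ i ∈ Icc 1 d, ∏ l ∈ range k, (1 - x ^ i * Q ^ l) + e * ∑ i ∈ Icc 1 d, s j i * L i := by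
    intro k
    refine ⟨fun i => (∑ l ∈ range k, -(x ^ i * Q ^ l) * ∏ l' ∈ (range k).erase l, (1 - x ^ i * Q ^ l'))
      * ∏ i' ∈ (Icc 1 d).erase i, ∏ l ∈ range k, (1 - x ^ i' * Q ^ l), fun j => ?_⟩
    have h1 : ∀ i, ∏ l ∈ range k, (1 - x ^ i * (1 + e * s j i) * Q ^ l)
        = ∏ l ∈ range k, (1 - x ^ i * Q ^ l) + e * (s j i *
          ∑ l ∈ range k, -(x ^ i * Q ^ l) * ∏ l' ∈ (range k).erase l, (1 - x ^ i * Q ^ l')) := by
      intro i
      have := prod_lin he (range k) (fun l => 1 - x ^ i * Q ^ l) (fun l => s j i * -(x ^ i * Q ^ l))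
      rw [mul_sum]
      simp only [mul_assoc] at this ⊢
      rw [← this]
      exact prod_congr rfl fun l _ => by ring
    simp only [h1]
    rw [prod_lin he]
    simp only [mul_assoc]
  choose L hL using hL
  have hz : ∀ i ∈ Icc 1 d, ∑ j ∈ Icc 1 d, (j : A) * s j i = 0 := by
    intro i hi
    simp only [hs, mul_sub, sum_sub_distrib, mul_ite, mul_zero]
    rw [sum_ite_eq, if_pos hi, ← sum_mul, ← Nat.cast_sum, hsum]; ring
  have tot : ∑ j ∈ Icc 1 d, (j : A) * ∑ k ∈ range n,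
      (∏ i ∈ Icc 1 d, ∏ l ∈ range k, (1 - x ^ i * (1 + e * s j i) * Q ^ l)) * w k ^ d * Q ^ k = 0 :=
    sum_eq_zero fun j hj => by rw [hP j hj, mul_zero]
  rw [← tot]
  simp only [hL, mul_sum]
  rw [sum_comm]
  refine sum_congr rfl fun k _ => ?_
  have h2 : ∑ j ∈ Icc 1 d, (j : A) * ∑ i ∈ Icc 1 d, e * (s j i * L k i) = 0 := by
    simp only [mul_sum]
    rw [sum_comm]
    refine sum_eq_zero fun i hi => ?_
    have := hz i hi
    have e3 : ∑ j ∈ Icc 1 d, (j : A) * (e * (s j i * L k i))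
        = (e * L k i) * ∑ j ∈ Icc 1 d, (j : A) * s j i := by
      rw [mul_sum]; exact sum_congr rfl fun j _ => by ring
    rw [e3, this, mul_zero]
  have h3 : (m : A) = ∑ j ∈ Icc 1 d, (j : A) := by rw [← Nat.cast_sum, hsum]
  have e4 : ∀ G : A, ∑ j ∈ Icc 1 d, (j : A) * ((G + ∑ i ∈ Icc 1 d, e * (s j i * L k i)) * w k ^ d * Q ^ k)
      = (∑ j ∈ Icc 1 d, (j : A)) * (G * w k ^ d * Q ^ k)
        + (∑ j ∈ Icc 1 d, (j : A) * ∑ i ∈ Icc 1 d, e * (s j i * L k i)) * (w k ^ d * Q ^ k) := by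
    intro G
    rw [sum_mul, sum_mul, ← sum_add_distrib]
    exact sum_congr rfl fun j _ => by ring
  rw [e4, h2, ← h3]; ring

end Pool.Agent.H.MP_4d1f21_nt
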